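import Pool.Agent.H38.RB.Targets

set_option autoImplicit false

namespace Pool.Agent.H38.RB

theorem CNTB (h1 : T_QR) (h2 : T_SMO) (h3 : T_COME) : T_CNTB := by
  classical
  intro κ ε hκ hκ1 hε
  set ε' : ℝ := min ε ((1 - κ) / 2) with hε'
  have he0 : 0 < ε' := lt_min hε (by linarith)
  have he1 : ε' ≤ ε := min_le_left _ _
  have he2 : ε' ≤ (1 - κ) / 2 := min_le_right _ _
  set τ : ℝ := 1 - κ - ε' with hτ
  have hτ0 : 0 < τ := by rw [hτ]; linarith
  have hτ1 : τ ≤ 1 := by rw [hτ]; linarith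
  obtain ⟨C1, hC1, H1⟩ := h1 (κ + τ) (by rw [hτ]; linarith)
  obtain ⟨C2, hC2, H2⟩ := h3 C1 (ε / 3) hC1 (by positivity)
  have hC10 : 0 < C1 := by linarith
  refine ⟨C1 * C2, by positivity, fun X y hX hy => ?_⟩
  have hX0 : 0 < X := by linarith
  have hy0 : 0 < y := by linarith
  set y' : ℝ := min y X with hy'
  have hy'0 : 0 < y' := lt_min hy0 hX0
  set Z : ℝ := y' * X ^ (1 - τ / 3) with hZ
  have hZ0 : 0 < Z := by positivity
  have hsub : {x | ∃ t : ℕ, Squarefree t ∧ (t : ℝ) ≤ X ∧ (∀ p ∈ t.primeFactors, (p : ℝ) ≤ y) ∧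
      x ∈ Sol κ t.primeFactors} ⊆ ⋃ t ∈ sq Z, Sol (κ + τ) t.primeFactors := by
    rintro x ⟨t, ht, htX, hp, hx⟩
    obtain ⟨D, hD, hxD, hle⟩ := h2 κ τ y t.primeFactors x hκ hτ0 hτ1 hy
      (fun p hp => Nat.prime_of_mem_primeFactors hp) hp hx
    set s : ℕ := ∏ p ∈ t.primeFactors \ D, p with hs
    have hsp : s.primeFactors = t.primeFactors \ D := by
      rw [hs]
      exact Nat.primeFactors_prod fun p hp =>
        Nat.prime_of_mem_primeFactors (Finset.mem_sdiff.1 hp).1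
    have hmul : s * ∏ p ∈ D, p = t := by
      rw [hs, Finset.prod_sdiff hD, Nat.prod_primeFactors_of_squarefree ht]
    have hsq : Squarefree s := ht.squarefree_of_dvd ⟨_, hmul.symm⟩
    have hs0 : 0 < s := Nat.pos_of_ne_zero hsq.ne_zero
    have ht0 : 0 < t := Nat.pos_of_ne_zero ht.ne_zero
    have ht0' : (0 : ℝ) < t := by exact_mod_cast ht0
    have hst : s ≤ t := Nat.le_of_dvd ht0 ⟨_, hmul.symm⟩
    rw [Nat.prod_primeFactors_of_squarefree ht] at hle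
    have hmulR : (s : ℝ) * ((∏ p ∈ D, p : ℕ) : ℝ) = t := by exact_mod_cast hmul
    have hsle : (s : ℝ) ≤ y * (t : ℝ) ^ (1 - τ / 3) := by
      have e1 : (t : ℝ) ^ (1 - τ / 3) * (t : ℝ) ^ (τ / 3) = t := by
        rw [← Real.rpow_add ht0']; simp
      have hpos : (0 : ℝ) < (t : ℝ) ^ (τ / 3) := by positivity
      have : (s : ℝ) * (t : ℝ) ^ (τ / 3) ≤ (y * (t : ℝ) ^ (1 - τ / 3)) * (t : ℝ) ^ (τ / 3) := by
        calc (s : ℝ) * (t : ℝ) ^ (τ / 3) ≤ (s : ℝ) * (y * ((∏ p ∈ D, p : ℕ) : ℝ)) := by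
              apply mul_le_mul_of_nonneg_left hle (by positivity)
          _ = y * t := by rw [← hmulR]; ring
          _ = (y * (t : ℝ) ^ (1 - τ / 3)) * (t : ℝ) ^ (τ / 3) := by rw [mul_assoc, e1]
      exact le_of_mul_le_mul_right this hpos
    have hexp0 : 0 ≤ 1 - τ / 3 := by linarith
    have htp : (t : ℝ) ^ (1 - τ / 3) ≤ X ^ (1 - τ / 3) :=
      Real.rpow_le_rpow ht0'.le htX hexp0
    have hsZ : (s : ℝ) ≤ Z := by
      rw [hZ, hy']
      rcases le_total y X with h | h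
      · rw [min_eq_left h]
        exact hsle.trans (mul_le_mul_of_nonneg_left htp hy0.le)
      · rw [min_eq_right h]
        have : (s : ℝ) ≤ X := le_trans (by exact_mod_cast hst) htX
        have h1X : 1 ≤ X ^ (1 - τ / 3) := Real.one_le_rpow hX hexp0
        nlinarith
    rw [Set.mem_iUnion₂]
    refine ⟨s, ?_, ?_⟩
    · rw [sq, Finset.mem_filter, Finset.mem_Icc]
      exact ⟨⟨hs0, Nat.le_floor hsZ⟩, hsq⟩
    · rw [hsp]; exact hxD
  have hprime : ∀ t : ℕ, ∀ p ∈ t.primeFactors, p.Prime :=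
    fun t p hp => Nat.prime_of_mem_primeFactors hp
  have hfin : (⋃ t ∈ sq Z, Sol (κ + τ) t.primeFactors).Finite :=
    Set.Finite.biUnion (Finset.finite_toSet _) fun t _ => (H1 _ (hprime t)).1
  refine ⟨hfin.subset hsub, ?_⟩
  have hcard : ((⋃ t ∈ sq Z, Sol (κ + τ) t.primeFactors).ncard : ℝ) ≤
      ∑ t ∈ sq Z, C1 ^ (t.primeFactors.card + 1) := by
    have : (⋃ t ∈ sq Z, Sol (κ + τ) t.primeFactors).ncard ≤
        ∑ t ∈ sq Z, (Sol (κ + τ) t.primeFactors).ncard := Finset.set_ncard_biUnion_le _ _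
    calc ((⋃ t ∈ sq Z, Sol (κ + τ) t.primeFactors).ncard : ℝ)
        ≤ ((∑ t ∈ sq Z, (Sol (κ + τ) t.primeFactors).ncard : ℕ) : ℝ) := by exact_mod_cast this
      _ = ∑ t ∈ sq Z, ((Sol (κ + τ) t.primeFactors).ncard : ℝ) := by push_cast; rfl
      _ ≤ _ := Finset.sum_le_sum fun t _ => (H1 _ (hprime t)).2
  have hZpow : Z ^ (1 + ε / 3) ≤ y * X ^ ((2 + κ) / 3 + ε) := by
    have hη : 0 ≤ ε / 3 := by positivity
    rw [hZ, Real.mul_rpow hy'0.le (by positivity), ← Real.rpow_mul hX0.le]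
    have ea : y' ^ (1 + ε / 3) ≤ y * X ^ (ε / 3) := by
      rw [Real.rpow_add hy'0, Real.rpow_one]
      exact mul_le_mul (min_le_left _ _) (Real.rpow_le_rpow hy'0.le (min_le_right _ _) hη)
        (by positivity) hy0.le
    have eb : X ^ ((1 - τ / 3) * (1 + ε / 3)) ≤ X ^ ((2 + κ) / 3 + 2 * ε / 3) := by
      apply Real.rpow_le_rpow_of_exponent_le hX
      have : (1 - τ / 3) * (ε / 3) ≤ ε / 3 := by nlinarith
      rw [hτ] at this ⊢
      nlinarith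
    calc y' ^ (1 + ε / 3) * X ^ ((1 - τ / 3) * (1 + ε / 3))
        ≤ (y * X ^ (ε / 3)) * X ^ ((2 + κ) / 3 + 2 * ε / 3) :=
          mul_le_mul ea eb (by positivity) (by positivity)
      _ = y * X ^ ((2 + κ) / 3 + ε) := by
          rw [mul_assoc, ← Real.rpow_add hX0]
          congr 2; ring
  calc (({x | ∃ t : ℕ, Squarefree t ∧ (t : ℝ) ≤ X ∧ (∀ p ∈ t.primeFactors, (p : ℝ) ≤ y) ∧
      x ∈ Sol κ t.primeFactors}).ncard : ℝ)
      ≤ ((⋃ t ∈ sq Z, Sol (κ + τ) t.primeFactors).ncard : ℝ) := by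
        exact_mod_cast Set.ncard_le_ncard hsub hfin
    _ ≤ ∑ t ∈ sq Z, C1 ^ (t.primeFactors.card + 1) := hcard
    _ = C1 * ∑ t ∈ sq Z, C1 ^ t.primeFactors.card := by
        rw [Finset.mul_sum]
        exact Finset.sum_congr rfl fun t _ => by rw [pow_succ]; ring
    _ ≤ C1 * (C2 * Z ^ (1 + ε / 3)) := mul_le_mul_of_nonneg_left (H2 Z hZ0) hC10.le
    _ ≤ C1 * (C2 * (y * X ^ ((2 + κ) / 3 + ε))) := by gcongr
    _ = C1 * C2 * y * X ^ ((2 + κ) / 3 + ε) := by ring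

end Pool.Agent.H38.RB
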