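import Pool.Agent.H38.RB.Targets

set_option autoImplicit false

namespace Pool.Agent.H38.RB

theorem FEW (h1 : T_HT) (h2 : T_MER) : T_FEW := by
  classical
  intro A B K hA hB
  obtain ⟨C1, hC1, H1⟩ := h1 A (by linarith)
  obtain ⟨c, hc, H2⟩ := h2
  set M : ℝ := C1 * (B ^ A * Real.exp (A * (1 + 2 * c))) with hM
  have hM0 : 0 < M := by positivity
  refine ⟨max (K + A) M, lt_max_of_lt_right hM0, fun X hX => ?_⟩
  set L := Real.log X with hL
  set LL := Real.log L with hLL
  have hlog2 : (0.69 : ℝ) < Real.log 2 := by linarith [Real.log_two_gt_d9]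
  have hL1 : 2.76 ≤ L := by
    have : Real.log 16 ≤ L := Real.log_le_log (by norm_num) hX
    have e : Real.log 16 = 4 * Real.log 2 := by
      rw [show (16 : ℝ) = 2 ^ (4 : ℕ) by norm_num, Real.log_pow]; norm_num
    linarith
  have hL0 : 0 < L := by linarith
  have hLL1 : 1 ≤ LL := by
    rw [hLL, Real.le_log_iff_exp_le hL0]
    have := Real.exp_one_lt_d9
    linarith
  have hLL0 : 0 < LL := by linarith
  set y : ℝ := L ^ B with hy
  have hyL : L ≤ y := by
    calc L = L ^ (1 : ℝ) := (Real.rpow_one L).symm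
      _ ≤ L ^ B := Real.rpow_le_rpow_of_exponent_le (by linarith) hB
  have hy2 : 2 ≤ y := by linarith
  have hlogy : Real.log y = B * LL := by rw [hy, Real.log_rpow hL0]
  set z : ℝ := 1 / LL with hz
  have hz0 : 0 < z := by positivity
  have hz1 : z ≤ 1 := by rw [hz, div_le_one hLL0]; exact hLL1
  let f : ℕ → ℝ := fun p => if y ≤ (p : ℝ) then A * z else A
  have hf : ∀ p, 0 ≤ f p ∧ f p ≤ A := by
    intro p
    simp only [f]
    split_ifs
    · exact ⟨by positivity, by nlinarith⟩
    · exact ⟨by linarith, le_refl _⟩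
  have hX2 : (2 : ℝ) ≤ X := by linarith
  have hX0 : (0 : ℝ) < X := by linarith
  -- the individual terms
  have hterm : ∀ t ∈ (sq X).filter (fun t : ℕ =>
      (t.primeFactors.filter fun p : ℕ => y ≤ (p : ℝ)).card < K),
      A ^ t.primeFactors.card ≤ LL ^ K * ∏ p ∈ t.primeFactors, f p := by
    intro t ht
    have hcard := (Finset.mem_filter.1 ht).2
    have e : ∏ p ∈ t.primeFactors, f p = A ^ t.primeFactors.card *
        z ^ (t.primeFactors.filter fun p : ℕ => y ≤ (p : ℝ)).card := by
      have : ∀ p ∈ t.primeFactors, f p = A * (if y ≤ (p : ℝ) then z else 1) := by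
        intro p _
        simp only [f]
        split_ifs <;> ring
      rw [Finset.prod_congr rfl this, Finset.prod_mul_distrib, Finset.prod_const, ← Finset.prod_filter,
        Finset.prod_const]
    rw [e]
    have hz2 : z ^ K ≤ z ^ (t.primeFactors.filter fun p : ℕ => y ≤ (p : ℝ)).card :=
      pow_le_pow_of_le_one hz0.le hz1 hcard.le
    have e2 : LL ^ K * z ^ K = 1 := by
      rw [← mul_pow, hz, mul_one_div_cancel hLL0.ne', one_pow]
    have hAp : (0 : ℝ) < A ^ t.primeFactors.card := by positivity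
    calc A ^ t.primeFactors.card = (LL ^ K * z ^ K) * A ^ t.primeFactors.card := by rw [e2, one_mul]
      _ ≤ (LL ^ K * z ^ (t.primeFactors.filter fun p : ℕ => y ≤ (p : ℝ)).card) *
          A ^ t.primeFactors.card := by gcongr
      _ = _ := by ring
  -- the exponent
  have hexp : ∑ p ∈ (Finset.Icc 1 ⌊X⌋₊).filter Nat.Prime, f p / p ≤
      A * (Real.log B + Real.log LL + c) + A * (1 + c) := by
    have hsplit : ∀ p ∈ (Finset.Icc 1 ⌊X⌋₊).filter Nat.Prime, f p / p ≤
        A * (if (p : ℝ) < y then 1 / (p : ℝ) else 0) + A * z * (1 / (p : ℝ)) := by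
      intro p hp
      have hp0 : (0 : ℝ) < p := by
        exact_mod_cast (Finset.mem_filter.1 hp).2.pos
      simp only [f]
      by_cases hpy : y ≤ (p : ℝ)
      · rw [if_pos hpy, if_neg (not_lt.2 hpy)]
        have : A * z / (p : ℝ) = A * z * (1 / (p : ℝ)) := by ring
        rw [this]; simp
      · rw [if_neg hpy, if_pos (not_le.1 hpy)]
        have : 0 ≤ A * z * (1 / (p : ℝ)) := by positivity
        have e : A / (p : ℝ) = A * (1 / (p : ℝ)) := by ring
        rw [e]; linarith
    refine (Finset.sum_le_sum hsplit).trans ?_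
    rw [Finset.sum_add_distrib, ← Finset.mul_sum, ← Finset.mul_sum]
    have hA0 : 0 ≤ A := by linarith
    apply add_le_add
    · apply mul_le_mul_of_nonneg_left _ hA0
      have hsub : ∑ p ∈ (Finset.Icc 1 ⌊X⌋₊).filter Nat.Prime, (if (p : ℝ) < y then 1 / (p : ℝ) else 0)
          ≤ ∑ p ∈ (Finset.Icc 1 ⌊y⌋₊).filter Nat.Prime, 1 / (p : ℝ) := by
        rw [← Finset.sum_filter]
        apply Finset.sum_le_sum_of_subset_of_nonneg
        · intro p hp
          simp only [Finset.mem_filter, Finset.mem_Icc] at hp ⊢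
          refine ⟨⟨hp.1.1.1, ?_⟩, hp.1.2⟩
          exact Nat.le_floor hp.2.le
        · intro p _ _
          positivity
      refine hsub.trans ((H2 y hy2).trans ?_)
      rw [hlogy, Real.log_mul (by linarith) hLL0.ne']
    · have := H2 X hX2
      have h3 : A * z * ∑ p ∈ (Finset.Icc 1 ⌊X⌋₊).filter Nat.Prime, 1 / (p : ℝ) ≤ A * z * (LL + c) :=
        mul_le_mul_of_nonneg_left this (by positivity)
      refine h3.trans ?_
      have e : A * z * (LL + c) = A * (1 + z * c) := by
        rw [hz]; field_simp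
      rw [e]
      apply mul_le_mul_of_nonneg_left _ hA0
      nlinarith
  have hprod0 : ∀ t : ℕ, 0 ≤ ∏ p ∈ t.primeFactors, f p :=
    fun t => Finset.prod_nonneg fun p _ => (hf p).1
  have hB0 : 0 < B := by linarith
  have hE : Real.exp (A * (Real.log B + Real.log LL + c) + A * (1 + c)) =
      B ^ A * Real.exp (A * (1 + 2 * c)) * LL ^ A := by
    rw [Real.rpow_def_of_pos hB0, Real.rpow_def_of_pos hLL0, ← Real.exp_add, ← Real.exp_add]
    congr 1; ring
  have hmain : ∑ t ∈ (sq X).filter (fun t : ℕ =>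
      (t.primeFactors.filter fun p : ℕ => y ≤ (p : ℝ)).card < K),
      A ^ t.primeFactors.card ≤ M * X * (LL ^ ((K : ℝ) + A)) / L := by
    calc ∑ t ∈ (sq X).filter (fun t : ℕ =>
      (t.primeFactors.filter fun p : ℕ => y ≤ (p : ℝ)).card < K), A ^ t.primeFactors.card
        ≤ ∑ t ∈ (sq X).filter (fun t : ℕ =>
      (t.primeFactors.filter fun p : ℕ => y ≤ (p : ℝ)).card < K),
          LL ^ K * ∏ p ∈ t.primeFactors, f p := Finset.sum_le_sum hterm
      _ ≤ ∑ t ∈ sq X, LL ^ K * ∏ p ∈ t.primeFactors, f p := by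
          apply Finset.sum_le_sum_of_subset_of_nonneg (Finset.filter_subset _ _)
          intro t _ _
          exact mul_nonneg (by positivity) (hprod0 t)
      _ = LL ^ K * ∑ t ∈ sq X, ∏ p ∈ t.primeFactors, f p := by rw [Finset.mul_sum]
      _ ≤ LL ^ K * (C1 * X / L * Real.exp (A * (Real.log B + Real.log LL + c) + A * (1 + c))) := by
          apply mul_le_mul_of_nonneg_left _ (by positivity)
          refine (H1 f hf X hX2).trans ?_
          apply mul_le_mul_of_nonneg_left _ (by positivity)
          exact Real.exp_le_exp.2 hexp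
      _ = M * X * (LL ^ ((K : ℝ) + A)) / L := by
          rw [hE, Real.rpow_add hLL0, Real.rpow_natCast, hM]
          ring
  refine hmain.trans ?_
  gcongr
  · exact le_max_right _ _
  · exact le_max_left _ _

end Pool.Agent.H38.RB
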